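import Pool.Agent.MP_5d23e6_lc.Defs

namespace Pool.Agent.MP_5d23e6_lc

open Filter Set Topology

noncomputable def cnt (A : Set ℕ) (n : ℕ) : ℝ := ((A ∩ Set.Iio n).ncard : ℝ)

def HasDens (S R : Set ℕ) (ρ : ℝ) : Prop := Tendsto (relRatio S R) atTop (𝓝 ρ)

lemma relRatio_eq (A B : Set ℕ) (n : ℕ) : relRatio A B n = cnt (A ∩ B) n / cnt B n := rfl

open Classical in
lemma cnt_eq_sum (A : Set ℕ) (n : ℕ) :
    cnt A n = ∑ x ∈ Finset.range n, if x ∈ A then (1 : ℝ) else 0 := by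
  have h : A ∩ Set.Iio n = ↑((Finset.range n).filter (· ∈ A)) := by
    ext x; simp [and_comm]
  rw [cnt, h, Set.ncard_coe_finset, Finset.card_filter]
  push_cast
  rfl

lemma cnt_nonneg (A : Set ℕ) (n : ℕ) : 0 ≤ cnt A n := by unfold cnt; positivity

lemma cnt_mono {A B : Set ℕ} (h : A ⊆ B) (n : ℕ) : cnt A n ≤ cnt B n := by
  classical
  rw [cnt_eq_sum, cnt_eq_sum]
  apply Finset.sum_le_sum
  intro x _
  by_cases hx : x ∈ A
  · simp [hx, h hx]
  · simp only [hx, if_false]; split_ifs <;> norm_num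

lemma cnt_split (A B : Set ℕ) (n : ℕ) : cnt A n = cnt (A ∩ B) n + cnt (A \ B) n := by
  classical
  rw [cnt_eq_sum, cnt_eq_sum, cnt_eq_sum, ← Finset.sum_add_distrib]
  apply Finset.sum_congr rfl
  intro x _
  by_cases hx : x ∈ A <;> by_cases hy : x ∈ B <;> simp [hx, hy]

lemma cnt_le_ncard {A : Set ℕ} (hA : A.Finite) (n : ℕ) : cnt A n ≤ A.ncard := by
  unfold cnt
  exact_mod_cast Set.ncard_le_ncard inter_subset_left hA

lemma cnt_tendsto {A : Set ℕ} (hA : A.Infinite) : Tendsto (cnt A) atTop atTop := by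
  rw [tendsto_atTop_atTop]
  intro b
  obtain ⟨s, hs, hcard⟩ := hA.exists_subset_card_eq ⌈b⌉₊
  refine ⟨s.sup id + 1, fun n hn => ?_⟩
  have h1 : (↑s : Set ℕ) ⊆ A ∩ Set.Iio n := by
    intro x hx
    refine ⟨hs hx, ?_⟩
    have : id x ≤ s.sup id := Finset.le_sup (f := id) hx
    simp only [id] at this
    simp only [mem_Iio]; omega
  have h2 := Set.ncard_le_ncard h1 ((Set.finite_Iio n).inter_of_right _)
  rw [Set.ncard_coe_finset, hcard] at h2
  calc b ≤ (⌈b⌉₊ : ℝ) := Nat.le_ceil b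
    _ ≤ cnt A n := by unfold cnt; exact_mod_cast h2

lemma relRatio_nonneg (A B : Set ℕ) (n : ℕ) : 0 ≤ relRatio A B n :=
  div_nonneg (cnt_nonneg _ _) (cnt_nonneg _ _)

lemma relRatio_le_one (A B : Set ℕ) (n : ℕ) : relRatio A B n ≤ 1 :=
  div_le_one_of_le₀ (cnt_mono inter_subset_right n) (cnt_nonneg _ _)

lemma relRatio_mono {A A' : Set ℕ} (h : A ⊆ A') (B : Set ℕ) (n : ℕ) :
    relRatio A B n ≤ relRatio A' B n :=
  div_le_div_of_nonneg_right (cnt_mono (inter_subset_inter_left _ h) n) (cnt_nonneg _ _)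

lemma relDensity_eq_some_iff (S R : Set ℕ) (ρ : ℝ) :
    relDensity S R = some ρ ↔ HasDens S R ρ := by
  have hb1 : IsBoundedUnder (· ≤ ·) atTop (relRatio S R) :=
    isBoundedUnder_of ⟨1, fun n => relRatio_le_one S R n⟩
  have hb2 : IsBoundedUnder (· ≥ ·) atTop (relRatio S R) :=
    isBoundedUnder_of ⟨0, fun n => relRatio_nonneg S R n⟩
  unfold relDensity HasDens
  constructor
  · intro h
    split_ifs at h with h1
    · have h2 : lowerRelDensity S R = ρ := Option.some.inj h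
      exact tendsto_of_liminf_eq_limsup h2 (h1.symm.trans h2) hb1 hb2
  · intro h
    have h1 : lowerRelDensity S R = ρ := h.liminf_eq
    have h2 : upperRelDensity S R = ρ := h.limsup_eq
    rw [if_pos (h1.trans h2.symm), h1]

lemma HasDens.infinite {S R : Set ℕ} {ρ : ℝ} (h : HasDens S R ρ) (hR : R.Infinite)
    (hρ : ρ ≠ 0) : (S ∩ R).Infinite := by
  intro hfin
  apply hρ
  have h0 : Tendsto (fun n => ((S ∩ R).ncard : ℝ) / cnt R n) atTop (𝓝 0) :=
    tendsto_const_nhds.div_atTop (cnt_tendsto hR)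
  have h1 : Tendsto (relRatio S R) atTop (𝓝 0) := by
    refine squeeze_zero (fun n => relRatio_nonneg S R n) (fun n => ?_) h0
    exact div_le_div_of_nonneg_right (cnt_le_ncard hfin n) (cnt_nonneg _ _)
  exact tendsto_nhds_unique h h1

lemma hasDens_univ {R : Set ℕ} (hR : R.Infinite) : HasDens univ R 1 := by
  refine tendsto_const_nhds.congr' ?_
  filter_upwards [(cnt_tendsto hR).eventually_gt_atTop 0] with n hn
  rw [relRatio_eq, univ_inter, div_self hn.ne']

lemma hasDens_self {R : Set ℕ} (hR : R.Infinite) : HasDens R R 1 := by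
  refine tendsto_const_nhds.congr' ?_
  filter_upwards [(cnt_tendsto hR).eventually_gt_atTop 0] with n hn
  rw [relRatio_eq, inter_self, div_self hn.ne']

lemma hasDens_empty (R : Set ℕ) : HasDens ∅ R 0 := by
  refine tendsto_const_nhds.congr fun n => ?_
  simp [relRatio]

lemma HasDens.diff {A B R : Set ℕ} {a b : ℝ} (hA : HasDens A R a) (hB : HasDens B R b)
    (h : B ⊆ A) : HasDens (A \ B) R (a - b) := by
  refine (Tendsto.sub hA hB).congr fun n => ?_
  rw [relRatio_eq, relRatio_eq, relRatio_eq, cnt_split (A ∩ R) B n]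
  have e1 : A ∩ R ∩ B = B ∩ R := by
    ext x; constructor
    · rintro ⟨⟨_, h2⟩, h3⟩; exact ⟨h3, h2⟩
    · rintro ⟨h1, h2⟩; exact ⟨⟨h h1, h2⟩, h1⟩
  have e2 : (A ∩ R) \ B = (A \ B) ∩ R := by
    ext x; simp only [Set.mem_sdiff, mem_inter_iff]; tauto
  rw [e1, e2]; ring

lemma HasDens.union {A B R : Set ℕ} {a b : ℝ} (hA : HasDens A R a) (hB : HasDens B R b)
    (h : Disjoint A B) : HasDens (A ∪ B) R (a + b) := by
  refine (Tendsto.add hA hB).congr fun n => ?_
  rw [relRatio_eq, relRatio_eq, relRatio_eq, cnt_split ((A ∪ B) ∩ R) B n]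
  have hd := Set.disjoint_left.mp h
  have e1 : (A ∪ B) ∩ R ∩ B = B ∩ R := by
    ext x; simp only [mem_inter_iff, mem_union]; tauto
  have e2 : ((A ∪ B) ∩ R) \ B = A ∩ R := by
    ext x; simp only [Set.mem_sdiff, mem_inter_iff, mem_union]
    have := @hd x
    tauto
  rw [e1, e2]; ring

lemma HasDens.compl {S R : Set ℕ} {ρ : ℝ} (h : HasDens S R ρ) (hR : R.Infinite) :
    HasDens Sᶜ R (1 - ρ) := by
  have := (hasDens_univ hR).diff h (subset_univ _)
  rwa [← compl_eq_univ_sdiff] at this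

lemma HasDens.mul {S C R : Set ℕ} {ρ c : ℝ} (hS : HasDens S (C ∩ R) ρ) (hC : HasDens C R c) :
    HasDens (S ∩ C) R (ρ * c) := by
  refine (Tendsto.mul hS hC).congr fun n => ?_
  rw [relRatio_eq, relRatio_eq, relRatio_eq, ← inter_assoc]
  by_cases h0 : cnt (C ∩ R) n = 0
  · have h1 : cnt (S ∩ C ∩ R) n = 0 := by
      apply le_antisymm _ (cnt_nonneg _ _)
      rw [← h0, inter_assoc]
      exact cnt_mono inter_subset_right n
    rw [h1]; simp
  · field_simp

end Pool.Agent.MP_5d23e6_lc
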