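import Mathlib

namespace Pool.Agent.MP_5d23e6_lc

/-- The ratio `|A ∩ B ∩ n| / |B ∩ n|`. -/
noncomputable def relRatio (A B : Set ℕ) (n : ℕ) : ℝ :=
  ((A ∩ B ∩ Set.Iio n).ncard : ℝ) / ((B ∩ Set.Iio n).ncard : ℝ)

/-- Lower relative density of `A` in `B`. -/
noncomputable def lowerRelDensity (A B : Set ℕ) : ℝ :=
  Filter.liminf (relRatio A B) Filter.atTop

/-- Upper relative density of `A` in `B`. -/
noncomputable def upperRelDensity (A B : Set ℕ) : ℝ :=
  Filter.limsup (relRatio A B) Filter.atTop

open Classical in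
/-- `d_B(A)`: the common value `some ρ` when lower and upper density agree, and `none`
(the symbol osc) otherwise. -/
noncomputable def relDensity (A B : Set ℕ) : Option ℝ :=
  if lowerRelDensity A B = upperRelDensity A B then some (lowerRelDensity A B) else none

/-- A family of infinite sets such that every infinite-coinfinite `S` has `d_R(S) ∉ X` for some
member `R`. -/
def IsReapingFamily (X : Set (Option ℝ)) (𝓡 : Set (Set ℕ)) : Prop :=
  (∀ R ∈ 𝓡, R.Infinite) ∧
    ∀ S : Set ℕ, S.Infinite → Sᶜ.Infinite → ∃ R ∈ 𝓡, relDensity S R ∉ X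

/-- The `X`-reaping number: least cardinality of an `X`-reaping family. -/
noncomputable def reapingNumber (X : Set (Option ℝ)) : Cardinal :=
  sInf {c : Cardinal | ∃ 𝓡 : Set (Set ℕ), IsReapingFamily X 𝓡 ∧ Cardinal.mk 𝓡 = c}

end Pool.Agent.MP_5d23e6_lc
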