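import Pool.Agent.MP_5d23e6_lc.Main

namespace Pool.Agent.MP_5d23e6_lc

open Filter Set Topology
open Cardinal hiding univ

lemma exists_alt_base (Y : Set ℕ) :
    ∃ S : Set ℕ, ∀ n, |2 * cnt (S ∩ Y) n - cnt Y n| ≤ 1 := by
  classical
  refine ⟨{x | Even (Nat.count (· ∈ Y) x)}, fun n => ?_⟩
  have : 2 * cnt ({x | Even (Nat.count (· ∈ Y) x)} ∩ Y) n - cnt Y n =
      if Even (Nat.count (· ∈ Y) n) then 0 else 1 := by
    induction n with
    | zero => simp [cnt]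
    | succ n ih =>
      rw [cnt_eq_sum, cnt_eq_sum] at ih ⊢
      rw [Finset.sum_range_succ, Finset.sum_range_succ, Nat.count_succ]
      by_cases hY : n ∈ Y <;> by_cases hE : Even (Nat.count (· ∈ Y) n) <;>
        simp only [hY, hE, mem_inter_iff, mem_ofPred_eq, if_true, if_false, and_true, and_false,
          Nat.even_add_one, not_true, not_false_iff, add_zero] at ih ⊢ <;> linarith
  rw [this]
  split_ifs <;> norm_num

lemma exists_bdd_disc (F : Set (Set ℕ)) (hF : F.Finite) :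
    ∀ Y : Set ℕ, ∃ (S : Set ℕ) (K : ℝ), ∀ R ∈ insert univ F, ∀ n,
      |2 * cnt (S ∩ (R ∩ Y)) n - cnt (R ∩ Y) n| ≤ K := by
  induction F, hF using Set.Finite.induction_on with
  | empty =>
    intro Y
    obtain ⟨S, hS⟩ := exists_alt_base Y
    refine ⟨S, 1, fun R hR n => ?_⟩
    have : R = univ := by simpa using hR
    rw [this, univ_inter]
    exact hS n
  | @insert Q F _ _ ih =>
    intro Y
    obtain ⟨S₁, K₁, h₁⟩ := ih (Y ∩ Q)
    obtain ⟨S₂, K₂, h₂⟩ := ih (Y \ Q)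
    have hK₂ : 0 ≤ K₂ := (abs_nonneg _).trans (h₂ univ (mem_insert _ _) 0)
    refine ⟨(S₁ ∩ Q) ∪ (S₂ \ Q), K₁ + K₂, fun R hR n => ?_⟩
    by_cases hRQ : R = Q
    · have a := h₁ univ (mem_insert _ _) n
      have e1 : (S₁ ∩ Q ∪ S₂ \ Q) ∩ (R ∩ Y) = S₁ ∩ (univ ∩ (Y ∩ Q)) := by
        ext x; simp only [hRQ, mem_inter_iff, mem_union, Set.mem_sdiff, mem_univ]; tauto
      have e2 : R ∩ Y = univ ∩ (Y ∩ Q) := by
        ext x; simp only [hRQ, mem_inter_iff, mem_univ]; tauto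
      rw [e1, e2]
      linarith
    · have hR' : R ∈ insert univ F := by
        rcases hR with h | h | h
        · exact Or.inl h
        · exact absurd h hRQ
        · exact Or.inr h
      have a1 := h₁ R hR' n
      have a2 := h₂ R hR' n
      rw [cnt_split ((S₁ ∩ Q ∪ S₂ \ Q) ∩ (R ∩ Y)) Q n, cnt_split (R ∩ Y) Q n]
      have e1 : (S₁ ∩ Q ∪ S₂ \ Q) ∩ (R ∩ Y) ∩ Q = S₁ ∩ (R ∩ (Y ∩ Q)) := by
        ext x; simp only [mem_inter_iff, mem_union, Set.mem_sdiff]; tauto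
      have e2 : ((S₁ ∩ Q ∪ S₂ \ Q) ∩ (R ∩ Y)) \ Q = S₂ ∩ (R ∩ (Y \ Q)) := by
        ext x; simp only [mem_inter_iff, mem_union, Set.mem_sdiff]; tauto
      have e3 : R ∩ Y ∩ Q = R ∩ (Y ∩ Q) := inter_assoc _ _ _
      have e4 : (R ∩ Y) \ Q = R ∩ (Y \ Q) := by
        ext x; simp only [mem_inter_iff, Set.mem_sdiff]; tauto
      rw [e1, e2, e3, e4]
      rw [abs_le] at a1 a2 ⊢
      constructor <;> linarith [a1.1, a1.2, a2.1, a2.2]

lemma exists_bisect_finite (F : Set (Set ℕ)) (hF : F.Finite) (hinf : ∀ R ∈ F, R.Infinite) :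
    ∃ S, ∀ R ∈ F, HasDens S R (1 / 2) := by
  obtain ⟨S, K, h⟩ := exists_bdd_disc F hF univ
  refine ⟨S, fun R hR => ?_⟩
  have hb : ∀ n, |2 * cnt (S ∩ R) n - cnt R n| ≤ K := by
    intro n
    have := h R (Or.inr hR) n
    rwa [inter_univ] at this
  have t0 : Tendsto (fun n => K / cnt R n) atTop (𝓝 0) :=
    tendsto_const_nhds.div_atTop (cnt_tendsto (hinf R hR))
  have t1 : Tendsto (fun n => 2 * relRatio S R n - 1) atTop (𝓝 0) := by
    rw [tendsto_zero_iff_abs_tendsto_zero]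
    refine squeeze_zero' (Eventually.of_forall fun n => abs_nonneg _) ?_ t0
    filter_upwards [(cnt_tendsto (hinf R hR)).eventually_gt_atTop 0] with n hn
    have e : 2 * relRatio S R n - 1 = (2 * cnt (S ∩ R) n - cnt R n) / cnt R n := by
      rw [relRatio_eq]; field_simp
    simp only [Function.comp]
    rw [e, abs_div, abs_of_pos hn]
    exact div_le_div_of_nonneg_right (hb n) hn.le
  have t2 := (t1.add_const 1).div_const 2
  simp only [zero_add] at t2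
  refine t2.congr fun n => ?_
  ring

/-- uniform value of the density over a small family -/
lemma exists_common {κ : Cardinal} (hκ : ℵ₀ ≤ κ)
    (H : ∀ F : Set (Set ℕ), (∀ R ∈ F, R.Infinite) → #F ≤ κ →
      ∃ S, ∀ R ∈ F, ∃ ρ ∈ Ioo (0 : ℝ) 1, HasDens S R ρ)
    (F : Set (Set ℕ)) (hF : ∀ R ∈ F, R.Infinite) (hc : #F ≤ κ) :
    ∃ S, ∃ ρ ∈ Ioo (0 : ℝ) 1, ∀ R ∈ F, HasDens S R ρ := by
  have : ∀ R : F, ∃ Q : Set ℕ, Q.Infinite ∧ ∀ S ρ₀ ρ₁ τ, HasDens S univ ρ₀ → HasDens S R ρ₁ →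
      HasDens S Q τ → ρ₀ = ρ₁ := fun R => exists_alternate infinite_univ (hF R R.2)
  choose g hg using this
  obtain ⟨S, hS⟩ := H (insert univ (F ∪ range g)) (by
      rintro R (rfl | hR | ⟨R', rfl⟩)
      · exact infinite_univ
      · exact hF R hR
      · exact (hg R').1) (by
      refine (mk_insert_le).trans ?_
      refine Cardinal.add_le_of_le hκ ?_ (one_le_aleph0.trans hκ)
      refine (mk_union_le _ _).trans ?_
      exact Cardinal.add_le_of_le hκ hc (mk_range_le.trans hc))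
  obtain ⟨ρ, hρ, hρS⟩ := hS univ (mem_insert _ _)
  refine ⟨S, ρ, hρ, fun R hR => ?_⟩
  obtain ⟨ρ₁, _, h1⟩ := hS R (Or.inr (Or.inl hR))
  obtain ⟨τ, _, h2⟩ := hS (g ⟨R, hR⟩) (Or.inr (Or.inr ⟨_, rfl⟩))
  have := (hg ⟨R, hR⟩).2 S ρ ρ₁ τ hρS h1 h2
  rwa [this]

lemma exists_eps {κ : Cardinal} (hκ : ℵ₀ ≤ κ)
    (H : ∀ F : Set (Set ℕ), (∀ R ∈ F, R.Infinite) → #F ≤ κ →
      ∃ S, ∀ R ∈ F, ∃ ρ ∈ Ioo (0 : ℝ) 1, HasDens S R ρ) :
    ∃ ε : ℝ, 0 < ε ∧ ∀ F : Set (Set ℕ), (∀ R ∈ F, R.Infinite) → #F ≤ κ →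
      ∃ S ρ, ε ≤ ρ ∧ ρ ≤ 1 / 2 ∧ ∀ R ∈ F, HasDens S R ρ := by
  by_contra hcon
  have h1 : ∀ n : ℕ, ∃ F : Set (Set ℕ), (∀ R ∈ F, R.Infinite) ∧ #F ≤ κ ∧
      ¬ ∃ S ρ, 1 / ((n : ℝ) + 1) ≤ ρ ∧ ρ ≤ 1 / 2 ∧ ∀ R ∈ F, HasDens S R ρ := by
    intro n
    by_contra h
    apply hcon
    refine ⟨1 / ((n : ℝ) + 1), by positivity, fun F a b => ?_⟩
    by_contra h'
    exact h ⟨F, a, b, h'⟩
  choose G hG1 hG2 hG3 using h1
  have hinf : ∀ R ∈ ⋃ n, G n, R.Infinite := by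
    intro R hR
    obtain ⟨n, hn⟩ := mem_iUnion.mp hR
    exact hG1 n R hn
  have hcard : #(⋃ n, G n) ≤ κ := by
    refine (mk_iUnion_le _).trans ?_
    rw [mk_nat]
    refine Cardinal.mul_le_of_le hκ hκ ?_
    exact ciSup_le hG2
  obtain ⟨S, ρ, hρ, hS⟩ := exists_common hκ H _ hinf hcard
  have h2 : ∃ S ρ, 0 < ρ ∧ ρ ≤ 1 / 2 ∧ ∀ R ∈ ⋃ n, G n, HasDens S R ρ := by
    by_cases h : ρ ≤ 1 / 2
    · exact ⟨S, ρ, hρ.1, h, hS⟩
    · refine ⟨Sᶜ, 1 - ρ, by linarith [hρ.2], by linarith, fun R hR => ?_⟩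
      exact (hS R hR).compl (hinf R hR)
  obtain ⟨S, ρ, a, b, c⟩ := h2
  obtain ⟨n, hn⟩ := exists_nat_one_div_lt a
  exact hG3 n ⟨S, ρ, hn.le, b, fun R hR => c R (mem_iUnion.mpr ⟨n, hR⟩)⟩

lemma isReaping_all : IsReapingFamily (some '' Ioo (0 : ℝ) 1) {R | R.Infinite} := by
  refine ⟨fun R hR => hR, fun S hS _ => ⟨S, hS, ?_⟩⟩
  rw [(relDensity_eq_some_iff S S 1).mpr (hasDens_self hS)]
  rintro ⟨ρ, hρ, h⟩
  have := Option.some.inj h
  linarith [hρ.2]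

lemma IsReapingFamily.mono {X Y : Set (Option ℝ)} (h : X ⊆ Y) {F : Set (Set ℕ)}
    (hF : IsReapingFamily Y F) : IsReapingFamily X F :=
  ⟨hF.1, fun S a b => by
    obtain ⟨R, hR, h'⟩ := hF.2 S a b
    exact ⟨R, hR, fun hx => h' (h hx)⟩⟩

lemma reapingNumber_le {X : Set (Option ℝ)} {F : Set (Set ℕ)} (hF : IsReapingFamily X F) :
    reapingNumber X ≤ #F := csInf_le' ⟨F, hF, rfl⟩

lemma exists_reaping {X : Set ℝ} (hX : X ⊆ Ioo 0 1) :
    ∃ F, IsReapingFamily (some '' X) F ∧ #F = reapingNumber (some '' X) :=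
  csInf_mem (s := {c : Cardinal | ∃ 𝓡 : Set (Set ℕ), IsReapingFamily (some '' X) 𝓡 ∧ #𝓡 = c})
    ⟨_, _, isReaping_all.mono (image_mono hX), rfl⟩

lemma not_reaping {X : Set ℝ} {τ : ℝ} (hτ : τ ∈ X) (h0 : 0 < τ) (h1 : τ < 1) {F : Set (Set ℕ)}
    (hF : IsReapingFamily (some '' X) F) :
    ¬ ∃ T, ∀ R ∈ insert univ F, HasDens T R τ := by
  rintro ⟨T, hT⟩
  have a := hT univ (mem_insert _ _)
  have b := a.infinite infinite_univ h0.ne'
  have c := (a.compl infinite_univ).infinite infinite_univ (by linarith)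
  rw [inter_univ] at b c
  obtain ⟨R, hR, h⟩ := hF.2 T b c
  exact h ⟨τ, hτ, ((relDensity_eq_some_iff T R τ).mpr (hT R (Or.inr hR))).symm⟩

theorem reaping_eq_Ioo {X : Set ℝ} (hne : X.Nonempty) (hX : X ⊆ Ioo 0 1) :
    reapingNumber (some '' X) = reapingNumber (some '' Ioo (0 : ℝ) 1) := by
  apply le_antisymm
  · obtain ⟨F, hF, hc⟩ := exists_reaping (X := Ioo 0 1) Subset.rfl
    rw [← hc]
    exact reapingNumber_le (hF.mono (image_mono hX))
  · obtain ⟨F, hF, hc⟩ := exists_reaping hX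
    obtain ⟨τ, hτ⟩ := hne
    have h0 := (hX hτ).1
    have h1 := (hX hτ).2
    rw [← hc]
    by_contra hlt
    rw [not_le] at hlt
    apply not_reaping hτ h0 h1 hF
    have hinf : ∀ R ∈ insert univ F, R.Infinite := by
      rintro R (rfl | hR)
      · exact infinite_univ
      · exact hF.1 R hR
    by_cases hfin : F.Finite
    · refine exists_dens_of_uniform _ hinf (ε := 1 / 2) (by norm_num) ?_ h0.le h1.le
      intro C hC
      obtain ⟨S, hS⟩ := exists_bisect_finite ((fun R => C ∩ R) '' insert univ F)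
        ((hfin.insert _).image _) (by rintro _ ⟨R, hR, rfl⟩; exact hC R hR)
      exact ⟨S, 1 / 2, le_rfl, le_rfl, fun R hR => hS _ ⟨R, hR, rfl⟩⟩
    · have hκ : ℵ₀ ≤ #F := by
        rw [Cardinal.aleph0_le_mk_iff]
        exact Set.infinite_coe_iff.mpr hfin
      have H : ∀ G : Set (Set ℕ), (∀ R ∈ G, R.Infinite) → #G ≤ #F →
          ∃ S, ∀ R ∈ G, ∃ ρ ∈ Ioo (0 : ℝ) 1, HasDens S R ρ := by
        intro G hG hcG
        by_contra hcon
        have : IsReapingFamily (some '' Ioo (0 : ℝ) 1) G := by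
          refine ⟨hG, fun S _ _ => ?_⟩
          by_contra h'
          apply hcon
          refine ⟨S, fun R hR => ?_⟩
          by_contra h''
          apply h'
          refine ⟨R, hR, ?_⟩
          rintro ⟨ρ, hρ, e⟩
          exact h'' ⟨ρ, hρ, (relDensity_eq_some_iff S R ρ).mp e.symm⟩
        exact absurd ((reapingNumber_le this).trans hcG) (not_le.mpr hlt)
      obtain ⟨ε, hε, hE⟩ := exists_eps hκ H
      refine exists_dens_of_uniform _ hinf hε ?_ h0.le h1.le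
      intro C hC
      obtain ⟨S, ρ, a, b, hS⟩ := hE ((fun R => C ∩ R) '' insert univ F)
        (by rintro _ ⟨R, hR, rfl⟩; exact hC R hR)
        (mk_image_le.trans (mk_insert_le.trans
          (Cardinal.add_le_of_le hκ le_rfl (one_le_aleph0.trans hκ))))
      exact ⟨S, ρ, a, b, fun R hR => hS _ ⟨R, hR, rfl⟩⟩

theorem reaping_eq_half (X : Set ℝ) (hne : X.Nonempty) (hX : X ⊆ Ioo 0 1) :
    reapingNumber (some '' X) = reapingNumber {some (1 / 2)} := by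
  have h := reaping_eq_Ioo (X := {1 / 2}) (singleton_nonempty _)
    (singleton_subset_iff.mpr ⟨by norm_num, by norm_num⟩)
  rw [image_singleton] at h
  rw [h]
  exact reaping_eq_Ioo hne hX

end Pool.Agent.MP_5d23e6_lc
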