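import Pool.Agent.MP_5d23e6_lc.Basic

namespace Pool.Agent.MP_5d23e6_lc

open Filter Set Topology

lemma cnt_agree {A B : Set ℕ} {a m : ℕ} (h : ∀ x, a ≤ x → x < m → (x ∈ A ↔ x ∈ B)) :
    |cnt A m - cnt B m| ≤ a := by
  classical
  rw [cnt_eq_sum, cnt_eq_sum, ← Finset.sum_sub_distrib]
  refine (Finset.abs_sum_le_sum_abs _ _).trans ?_
  calc ∑ x ∈ Finset.range m, |((if x ∈ A then (1 : ℝ) else 0) - if x ∈ B then (1 : ℝ) else 0)|
      ≤ ∑ x ∈ Finset.range m, (if x ∈ Finset.range a then (1 : ℝ) else 0) := by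
        apply Finset.sum_le_sum
        intro x hx
        rw [Finset.mem_range] at hx
        by_cases hxa : x < a
        · simp only [Finset.mem_range, hxa, if_true]
          split_ifs <;> norm_num
        · have := h x (not_lt.mp hxa) hx
          simp only [Finset.mem_range, hxa, if_false]
          by_cases hA : x ∈ A
          · simp [hA, this.mp hA]
          · have hB : x ∉ B := fun hB => hA (this.mpr hB)
            simp [hA, hB]
    _ ≤ a := by
        rw [Finset.sum_ite_mem, Finset.sum_const, nsmul_eq_mul, mul_one]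
        have := Finset.card_le_card (Finset.inter_subset_right (s₁ := Finset.range m)
          (s₂ := Finset.range a))
        rw [Finset.card_range] at this
        exact_mod_cast this

lemma ratio_agree {S A B : Set ℕ} {a m : ℕ} (h : ∀ x, a ≤ x → x < m → (x ∈ A ↔ x ∈ B))
    (hpos : 0 < cnt A m) :
    |relRatio S A m - relRatio S B m| ≤ 2 * a / cnt A m := by
  have h1 := cnt_agree h
  have h2 : |cnt (S ∩ A) m - cnt (S ∩ B) m| ≤ a :=
    cnt_agree fun x hx hm => by simp only [mem_inter_iff, h x hx hm]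
  have hr0 := relRatio_nonneg S B m
  have hr1 := relRatio_le_one S B m
  have hr : cnt (S ∩ B) m = relRatio S B m * cnt B m := by
    rw [relRatio_eq]
    by_cases h0 : cnt B m = 0
    · have : cnt (S ∩ B) m = 0 :=
        le_antisymm (h0 ▸ cnt_mono inter_subset_right m) (cnt_nonneg _ _)
      rw [this, h0]; simp
    · field_simp
  set r := relRatio S B m
  rw [relRatio_eq, le_div_iff₀ hpos]
  have e : |cnt (S ∩ A) m / cnt A m - r| * cnt A m = |cnt (S ∩ A) m - r * cnt A m| := by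
    rw [← abs_of_pos hpos, ← abs_mul, abs_of_pos hpos]
    congr 1
    field_simp
  rw [e]
  rw [hr] at h2
  rw [abs_le] at h1 h2 ⊢
  constructor <;> nlinarith [h1.1, h1.2, h2.1, h2.2]

/-- Alternation lemma. -/
lemma exists_alternate {R₀ R₁ : Set ℕ} (h₀ : R₀.Infinite) (h₁ : R₁.Infinite) :
    ∃ Q : Set ℕ, Q.Infinite ∧ ∀ S ρ₀ ρ₁ τ, HasDens S R₀ ρ₀ → HasDens S R₁ ρ₁ → HasDens S Q τ →
      ρ₀ = ρ₁ := by
  classical
  have step : ∀ k a : ℕ, ∃ m : ℕ, a < m ∧ ((k : ℝ) + 1) * (a + 1) ≤ cnt R₀ m ∧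
      ((k : ℝ) + 1) * (a + 1) ≤ cnt R₁ m := by
    intro k a
    have e0 := (cnt_tendsto h₀).eventually_ge_atTop (((k : ℝ) + 1) * (a + 1))
    have e1 := (cnt_tendsto h₁).eventually_ge_atTop (((k : ℝ) + 1) * (a + 1))
    exact ((eventually_gt_atTop a).and (e0.and e1)).exists
  choose f hf using step
  obtain ⟨N, hN⟩ : ∃ N : ℕ → ℕ, ∀ k, N (k + 1) = f k (N k) :=
    ⟨fun k => Nat.rec 0 (fun k a => f k a) k, fun k => rfl⟩
  have hmono : StrictMono N := strictMono_nat_of_lt_succ fun k => by rw [hN]; exact (hf _ _).1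
  let P : ℕ → Set ℕ := fun k => if Even k then R₀ else R₁
  have hP : ∀ k : ℕ, ((k : ℝ) + 1) * (((N k : ℕ) : ℝ) + 1) ≤ cnt (P k) (N (k + 1)) := by
    intro k
    rw [hN]
    by_cases hk : Even k
    · simp only [P, hk, if_true]; exact (hf _ _).2.1
    · simp only [P, hk, if_false]; exact (hf _ _).2.2
  let Q : Set ℕ := {x | ∃ k, N k ≤ x ∧ x < N (k + 1) ∧ x ∈ P k}
  have hQ : ∀ k x, N k ≤ x → x < N (k + 1) → (x ∈ P k ↔ x ∈ Q) := by
    intro k x h1 h2
    constructor
    · intro hx; exact ⟨k, h1, h2, hx⟩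
    · rintro ⟨j, h3, h4, hx⟩
      have : j = k := by
        have a1 : j < k + 1 := hmono.lt_iff_lt.mp (lt_of_le_of_lt h3 h2)
        have a2 : k < j + 1 := hmono.lt_iff_lt.mp (lt_of_le_of_lt h1 h4)
        omega
      rwa [← this]
  have hpos : ∀ k, 0 < cnt (P k) (N (k + 1)) := fun k =>
    lt_of_lt_of_le (by positivity) (hP k)
  have key : ∀ (S : Set ℕ) (k : ℕ), |relRatio S (P k) (N (k + 1)) - relRatio S Q (N (k + 1))| ≤
      2 / ((k : ℝ) + 1) := by
    intro S k
    refine (ratio_agree (hQ k) (hpos k)).trans ?_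
    rw [div_le_div_iff₀ (hpos k) (by positivity)]
    have := hP k
    have h0 : (0 : ℝ) ≤ k := by positivity
    nlinarith
  have lim : ∀ S τ (g : ℕ → ℕ) (R : Set ℕ) (ρ : ℝ), Tendsto g atTop atTop → (∀ j, P (g j) = R) →
      HasDens S R ρ → HasDens S Q τ → ρ = τ := by
    intro S τ g R ρ hg hgR hρ hτ
    have hN' : Tendsto (fun j => N (g j + 1)) atTop atTop :=
      hmono.tendsto_atTop.comp ((tendsto_add_atTop_nat 1).comp hg)
    have t1 : Tendsto (fun j => relRatio S R (N (g j + 1)) - relRatio S Q (N (g j + 1))) atTop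
        (𝓝 (ρ - τ)) := (hρ.comp hN').sub (hτ.comp hN')
    have t2 : Tendsto (fun j => 2 / ((g j : ℝ) + 1)) atTop (𝓝 0) :=
      tendsto_const_nhds.div_atTop
        (tendsto_atTop_add_const_right _ _ (tendsto_natCast_atTop_atTop.comp hg))
    have t3 : Tendsto (fun j => relRatio S R (N (g j + 1)) - relRatio S Q (N (g j + 1))) atTop
        (𝓝 0) := by
      rw [tendsto_zero_iff_abs_tendsto_zero]
      refine squeeze_zero (fun j => abs_nonneg _) (fun j => ?_) t2
      have := key S (g j)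
      rw [hgR] at this
      exact this
    have := tendsto_nhds_unique t1 t3
    linarith
  refine ⟨Q, ?_, ?_⟩
  · intro hfin
    obtain ⟨k, hk⟩ := exists_nat_gt (Q.ncard : ℝ)
    have a1 := cnt_agree (hQ k)
    have a2 := cnt_le_ncard hfin (N (k + 1))
    have a3 := hP k
    rw [abs_le] at a1
    have h0 : (0 : ℝ) ≤ k := by positivity
    have h1 : (0 : ℝ) ≤ ((N k : ℕ) : ℝ) := by positivity
    nlinarith [a1.2]
  · intro S ρ₀ ρ₁ τ a0 a1 aQ
    have b0 := lim S τ (fun j => 2 * j) R₀ ρ₀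
      (tendsto_atTop_mono (fun j => by simp only [id]; omega) tendsto_id)
      (fun j => by simp [P]) a0 aQ
    have b1 := lim S τ (fun j => 2 * j + 1) R₁ ρ₁
      (tendsto_atTop_mono (fun j => by simp only [id]; omega) tendsto_id)
      (fun j => by simp [P]) a1 aQ
    rw [b0, b1]

/-- Greedy construction of a set of prescribed density. -/
lemma exists_dens_of_uniform (F : Set (Set ℕ)) (hF : ∀ R ∈ F, R.Infinite) {ε : ℝ} (hε : 0 < ε)
    (H : ∀ C : Set ℕ, (∀ R ∈ F, (C ∩ R).Infinite) →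
      ∃ S ρ, ε ≤ ρ ∧ ρ ≤ 1 / 2 ∧ ∀ R ∈ F, HasDens S (C ∩ R) ρ)
    {τ : ℝ} (h0 : 0 ≤ τ) (h1 : τ ≤ 1) : ∃ T, ∀ R ∈ F, HasDens T R τ := by
  classical
  let Good : (Set ℕ × Set ℕ) × (ℝ × ℝ) → Prop := fun p =>
    p.1.1 ⊆ p.1.2 ∧ p.2.1 ≤ τ ∧ τ ≤ p.2.2 ∧ p.2.1 < p.2.2 ∧
      ∀ R ∈ F, HasDens p.1.1 R p.2.1 ∧ HasDens p.1.2 R p.2.2
  have step : ∀ p : {p // Good p}, ∃ q : {p // Good p}, p.1.1.1 ⊆ q.1.1.1 ∧ q.1.1.2 ⊆ p.1.1.2 ∧
      q.1.2.2 - q.1.2.1 ≤ (1 - ε) * (p.1.2.2 - p.1.2.1) := by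
    rintro ⟨⟨⟨L, U⟩, ⟨l, u⟩⟩, hLU, hl, hu, hlu, hd⟩
    simp only at hLU hl hu hlu hd
    have hC : ∀ R ∈ F, HasDens (U \ L) R (u - l) := fun R hR =>
      (hd R hR).2.diff (hd R hR).1 hLU
    obtain ⟨S, ρ, hρ1, hρ2, hS⟩ := H (U \ L) fun R hR =>
      (hC R hR).infinite (hF R hR) (by linarith)
    have hD : ∀ R ∈ F, HasDens (S ∩ (U \ L)) R (ρ * (u - l)) := fun R hR =>
      (hS R hR).mul (hC R hR)
    have hc : 0 < u - l := by linarith
    by_cases hcase : l + ρ * (u - l) ≤ τ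
    · refine ⟨⟨((L ∪ S ∩ (U \ L), U), (l + ρ * (u - l), u)), ?_, hcase, hu, ?_, ?_⟩,
        subset_union_left, Subset.rfl, ?_⟩
      · exact union_subset hLU fun x hx => hx.2.1
      · show l + ρ * (u - l) < u
        nlinarith
      · intro R hR
        refine ⟨(hd R hR).1.union (hD R hR) ?_, (hd R hR).2⟩
        exact Set.disjoint_left.mpr fun x hx hx' => hx'.2.2 hx
      · show u - (l + ρ * (u - l)) ≤ (1 - ε) * (u - l)
        nlinarith
    · refine ⟨⟨((L, U \ (S ∩ (U \ L))), (l, u - ρ * (u - l))), ?_, hl, ?_, ?_, ?_⟩,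
        Subset.rfl, sdiff_subset, ?_⟩
      · exact fun x hx => ⟨hLU hx, fun hx' => hx'.2.2 hx⟩
      · show τ ≤ u - ρ * (u - l)
        nlinarith
      · show l < u - ρ * (u - l)
        nlinarith
      · intro R hR
        exact ⟨(hd R hR).1, (hd R hR).2.diff (hD R hR) fun x hx => hx.2.1⟩
      · show u - ρ * (u - l) - l ≤ (1 - ε) * (u - l)
        nlinarith
  choose f hf using step
  let p0 : {p // Good p} := ⟨((∅, univ), (0, 1)), empty_subset _, h0, h1, zero_lt_one,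
    fun R hR => ⟨hasDens_empty R, hasDens_univ (hF R hR)⟩⟩
  let p : ℕ → {p // Good p} := fun k => f^[k] p0
  have hp : ∀ k, p (k + 1) = f (p k) := fun k => Function.iterate_succ_apply' f k p0
  have hL : Monotone fun k => (p k).1.1.1 :=
    monotone_nat_of_le_succ fun k => by rw [hp]; exact (hf _).1
  have hU : Antitone fun k => (p k).1.1.2 :=
    antitone_nat_of_succ_le fun k => by rw [hp]; exact (hf _).2.1
  have hε1 : ε ≤ 1 / 2 := by
    obtain ⟨S, ρ, a, b, _⟩ := H univ fun R hR => by rw [univ_inter]; exact hF R hR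
    linarith
  have hgap : ∀ k, (p k).1.2.2 - (p k).1.2.1 ≤ (1 - ε) ^ k := by
    intro k
    induction k with
    | zero => simp [p, p0]
    | succ k ih =>
      rw [hp, pow_succ]
      refine (hf _).2.2.trans ?_
      have : 0 ≤ 1 - ε := by linarith
      nlinarith
  have hlim : Tendsto (fun k => (1 - ε) ^ k) atTop (𝓝 0) :=
    tendsto_pow_atTop_nhds_zero_of_lt_one (by linarith) (by linarith)
  refine ⟨⋃ k, (p k).1.1.1, fun R hR => ?_⟩
  have hsub : ∀ k, (⋃ k, (p k).1.1.1) ⊆ (p k).1.1.2 := by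
    intro k
    refine iUnion_subset fun j => ?_
    have a1 : (p j).1.1.1 ⊆ (p (max j k)).1.1.1 := hL (le_max_left j k)
    have a2 : (p (max j k)).1.1.2 ⊆ (p k).1.1.2 := hU (le_max_right j k)
    exact a1.trans ((p (max j k)).2.1.trans a2)
  unfold HasDens
  rw [tendsto_order]
  constructor
  · intro a ha
    obtain ⟨k, hk⟩ := (hlim.eventually_lt_const (show 0 < τ - a by linarith)).exists
    obtain ⟨_, b1, b2, _, b4⟩ := (p k).2
    have c1 : a < (p k).1.2.1 := by linarith [hgap k]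
    filter_upwards [(b4 R hR).1.eventually_const_lt c1] with n hn
    exact hn.trans_le (relRatio_mono (subset_iUnion (fun k => (p k).1.1.1) k) R n)
  · intro a ha
    obtain ⟨k, hk⟩ := (hlim.eventually_lt_const (show 0 < a - τ by linarith)).exists
    obtain ⟨_, b1, b2, _, b4⟩ := (p k).2
    have c1 : (p k).1.2.2 < a := by linarith [hgap k]
    filter_upwards [(b4 R hR).2.eventually_lt_const c1] with n hn
    exact (relRatio_mono (hsub k) R n).trans_lt hn

end Pool.Agent.MP_5d23e6_lc
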